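import Mathlib
import Pool.Agent.H534R3.UD

/-!
# Sparse random digits: definitions and statements
-/

set_option autoImplicit false

namespace Pool.Agent.R739.SF

open Finset Filter Topology Pool.Agent.H534R3.UDist

/-- the closure of the orbit of `x` under `x ↦ b x mod 1` -/
def orb (b : ℕ) (x : ℝ) : Set ℝ := closure (Set.range fun n : ℕ => Int.fract ((b : ℝ) ^ n * x))

/-- subtask KOR: sums of powers modulo prime powers -/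
def STM_KOR : Prop := ∀ (a b r : ℕ), 2 ≤ a → 2 ≤ b → r.Prime → r ∣ b → ¬ r ∣ a →
  ∃ C t0 : ℕ, ∀ (s N : ℕ) (y : ℤ), ¬ (r : ℤ) ^ (padicValNat r b * s - t0) ∣ y →
    ‖∑ n ∈ Ioc 0 N, ee ((a : ℝ) ^ n * ((y : ℝ) / (b : ℝ) ^ s))‖ ≤ C * (b : ℝ) ^ s

/-- subtask VAL: separated digits -/
def STM_VAL : Prop := ∀ (b r : ℕ), 2 ≤ b → r.Prime → r ∣ b → ∀ (M t0 : ℕ) (h : ℤ), h ≠ 0 →
  ∃ G : ℕ, ∀ (s : ℕ) (n : ℕ → ℕ) (K : Finset ℕ), (∀ k ∈ K, G ≤ n k) → (∀ k ∈ K, n k ≤ s) →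
    (∀ k ∈ K, ∀ l ∈ K, k < l → n k + G ≤ n l) → ∀ z : ℕ → ℤ, (∀ k ∈ K, |z k| ≤ M) →
      (r : ℤ) ^ (padicValNat r b * s - t0) ∣ h * ∑ k ∈ K, z k * (b : ℤ) ^ (s - n k) →
        ∀ k ∈ K, z k = 0

/-- subtask CTB: sparse expansions have countable orbit closures -/
def STM_CTB : Prop := ∀ (b : ℕ), 2 ≤ b → ∀ (n : ℕ → ℕ),
  Tendsto (fun k => n (k + 1) - n k) atTop atTop → ∀ (M : ℕ) (d : ℕ → ℤ), (∀ k, |d k| ≤ M) →
    (orb b (∑' k, (d k : ℝ) / (b : ℝ) ^ (n k))).Countable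

end Pool.Agent.R739.SF
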